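import Pool.Agent.Y741.LFinal2
import Pool.Agent.V8H90.AJ.Ge
import Pool.Agent.Y172.Cov2
import Pool.Agent.Y191.SmallFib

/-!
Pluricanonical forms on the orbifold subvarieties of very general pairs in projective space.
-/

set_option autoImplicit false

open MvPolynomial FF Pool.Agent.W603.LV Pool.Agent.W603.PV Pool.Agent.TH145.GH
open Pool.Agent.Y735 (lf pm tm pl vol vol_apply po po_le exists_po zp zp_pl zp_smul exists_xi rho
  eval_rho)
open Pool.Agent.W602.GT Pool.Agent.TH145.GF Pool.Agent.TH145.MG Pool.Agent.Y741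
open Pool.Agent.TH145.GC (Cf)
open Pool.Agent.V8H90.AJ (GO)

namespace Pool.Agent.V8H90.VG

section

variable {L : Type} [Field L] [Algebra ℂ L] {p : ℕ}

/-- forms with logarithmic estimates, on regular vector fields -/
theorem reg_of_log [Algebra.EssFiniteType ℂ L] (htr : Algebra.trdeg ℂ L = p) {Q : Place ℂ L}
    (hQ : Divisorial p Q) {Φ : (Fin p → Derivation ℂ L L) → L}
    (hlin : ∀ (M : Matrix (Fin p) (Fin p) L) (D1 D2 : Fin p → Derivation ℂ L L),
      (∀ i f, D1 i f = ∑ j, M i j * D2 j f) → Φ D1 = M.det * Φ D2) {c : ℤ}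
    (hlog : ∀ D : Fin p → Derivation ℂ L L, (∀ i, DerLog Q (D i)) → Ge Q c (Φ D))
    {D : Fin p → Derivation ℂ L L} (hD : ∀ i, DerReg Q (D i)) : Ge Q (c - 1) (Φ D) := by
  classical
  obtain ⟨y, E, i0, h⟩ := Pool.Agent.Y172.exists_loc htr hQ
  have h1 : Φ D = (Matrix.of fun i j => D i (y j)).det * Φ E :=
    hlin _ _ _ fun i f => der_comb h.bas h.dual (D i) f
  have h3 : Φ (fun i => Pool.Agent.Y172.lc y i0 i • E i) = y i0 * Φ E := by
    rw [hlin (Matrix.diagonal fun i => Pool.Agent.Y172.lc y i0 i) _ E fun i f => ?_,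
      Matrix.det_diagonal, Pool.Agent.Y172.prod_lc]
    rw [Finset.sum_eq_single i]
    · rw [Matrix.diagonal_apply_eq]
      rfl
    · intro b _ hb
      rw [Matrix.diagonal_apply_ne _ (Ne.symm hb), zero_mul]
    · intro hi
      exact absurd (Finset.mem_univ i) hi
  have h4 : Ge Q c (y i0 * Φ E) := h3 ▸ hlog _ h.log
  have h5 : Ge Q (c - 1) (Φ E) := by
    rcases h4 with h4 | h4
    · left
      exact (mul_eq_zero.1 h4).resolve_left h.ne
    · by_cases h6 : Φ E = 0
      · exact Or.inl h6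
      right
      rw [Q.ord_mul h.ne h6, h.unif] at h4
      omega
  have h6 : Ge Q 0 (Matrix.of fun i j => D i (y j)).det :=
    Pool.Agent.W619.PQ.ge_det Q _ fun i j => hD i _ (h.reg j)
  rw [h1]
  have h7 := h6.mul h5
  rwa [zero_add] at h7

/-- The multiplicity in the hypersurface `G b = 0` at the place. -/
noncomputable def mu {n : ℕ} {A : Type} (G : A → MvPolynomial (Fin (n + 1)) ℂ) (dg : A → ℕ)
    (x : Fin (n + 1) → L) (Q : Place ℂ L) (b : A) : ℤ :=
  Q.ord (aeval x (G b)) - dg b * pord Q x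

end

section

variable {k0 : Type} [Field k0] [Algebra k0 ℂ] {n p : ℕ} {A : Type} [Fintype A] [DecidableEq A]
  {dg : A → ℕ} {L : Type} [Field L] [Algebra ℂ L]

/-- The forms on the subvariety, at a normalised point. -/
theorem base_one [Algebra.EssFiniteType ℂ L] (hn : 1 ≤ n) (hpos : ∀ a, 0 < dg a)
    {G : A → MvPolynomial (Fin (n + 1)) ℂ} (hG : ∀ a, (G a).IsHomogeneous (dg a))
    (hind : AlgebraicIndependent k0 fun p : Cf n dg => (G p.1).coeff p.2.1)
    {C : Finset A} (hC : ∃ b, b ∉ C) (hd : 3 * n + 3 ≤ 2 * ∑ a, dg a + C.card) (hp : 0 < p)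
    (htr : Algebra.trdeg ℂ L = p) {x : Fin (n + 1) → L} {j0 : Fin (n + 1)} (hx1 : x j0 = 1)
    (hgen : Algebra.IsAlgebraic (coords ℂ x) L)
    (hxC : ∀ c ∈ C, aeval x (G c) = 0) (hxb : ∀ b, b ∉ C → aeval x (G b) ≠ 0)
    {m : A → ℕ} (hm : ∀ b, 1 ≤ m b)
    (hT : (2 * n + 1 : ℚ) < ∑ c ∈ C, ((dg c : ℚ) + 1) + ∑ b ∈ Cᶜ, (dg b : ℚ) * (1 - 1 / m b) + p)
    {X : Set (Place ℂ L)} {B : Place ℂ L → ℝ} (hB0 : ∀ v ∈ X, 0 ≤ B v)
    (hB : ∀ v ∈ X, Divisorial p v → (∀ b, b ∉ C → mu G dg x v b = 0) ∨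
      1 - B v ≤ ∑ b ∈ Cᶜ, (mu G dg x v b : ℝ) / m b) :
    Pool.Agent.Y191.KodairaGe p X B p := by
  classical
  have hLz : CharZero L := charZero_of_injective_algebraMap (algebraMap ℂ L).injective
  obtain ⟨F, hFG⟩ : ∃ F : Fam L n A, ∀ a, F a = map (algebraMap ℂ L) (G a) := ⟨_, fun _ => rfl⟩
  have hFeq : (fun a => map (algebraMap ℂ L) (G a)) = F := (funext hFG).symm
  have hF : ∀ a, (F a).IsHomogeneous (dg a) := fun a => by
    rw [hFG]
    exact (hG a).map _
  have hev : ∀ (z : Fin (n + 1) → L) (a : A), aeval z (G a) = eval z (F a) := fun z a => by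
    rw [hFG, eval_map]
    rfl
  have hxC' := hxC
  have hxb' := hxb
  simp only [hev] at hxC' hxb'
  obtain ⟨l, hl⟩ := exists_coord_basis htr hgen
  choose E hE using fun i : Fin p => exists_der (fun i => x (l i)) hl
    fun j => if i = j then (1 : L) else 0
  obtain ⟨D, hD, hS, hcm⟩ := exists_duals_L hl G hind
  rw [hFeq] at hD
  have hFk : ∀ a u, ∃ c : ℂ, (F a).coeff u = algebraMap ℂ L c := fun a u => by
    rw [hFG, coeff_map]
    exact ⟨_, rfl⟩
  have hFK : ∀ ξ a u, vE E ξ ((F a).coeff u) = 0 := fun ξ a u => by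
    obtain ⟨c, hc⟩ := hFk a u
    rw [hc]
    exact (E ξ).map_algebraMap c
  have hx0 : x ≠ 0 := by
    rintro h
    rw [h] at hx1
    exact zero_ne_one hx1
  have hind' := rank_Ve hx1 hE
  -- the numbers
  have hmq : ∀ b, (1 : ℚ) ≤ m b := fun b => by exact_mod_cast hm b
  have hsum : ∑ c ∈ C, ((dg c : ℚ) + 1) + ∑ b ∈ Cᶜ, (dg b : ℚ) * (1 - 1 / m b) =
      ((∑ a, dg a : ℕ) : ℚ) + C.card - ∑ b ∈ Cᶜ, (dg b : ℚ) / m b := by
    have h1 : ((∑ a, dg a : ℕ) : ℚ) = ∑ c ∈ C, (dg c : ℚ) + ∑ b ∈ Cᶜ, (dg b : ℚ) := by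
      rw [Finset.sum_add_sum_compl, Nat.cast_sum]
    have h2 : ∑ b ∈ Cᶜ, (dg b : ℚ) * (1 - 1 / m b) =
        ∑ b ∈ Cᶜ, (dg b : ℚ) - ∑ b ∈ Cᶜ, (dg b : ℚ) / m b := by
      rw [← Finset.sum_sub_distrib]
      exact Finset.sum_congr rfl fun b _ => by ring
    rw [h1, h2, Finset.sum_add_distrib, Finset.sum_const, nsmul_eq_mul, mul_one]
    ring
  rw [hsum] at hT
  have hpos' : (0 : ℚ) ≤ ∑ b ∈ Cᶜ, (dg b : ℚ) / m b :=
    Finset.sum_nonneg fun b _ => by positivity
  have hlines : 2 * n + 2 ≤ ∑ a, dg a + C.card + p := by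
    have h1 : ((2 * n + 1 : ℕ) : ℚ) < ((∑ a, dg a + C.card + p : ℕ) : ℚ) := by
      push_cast
      push_cast at hT
      linarith
    have h2 : 2 * n + 1 < ∑ a, dg a + C.card + p := by exact_mod_cast h1
    omega
  rcases tricho_E hpos hF hD hFK hcm hn (by rw [Fintype.card_fin]; exact hp) hC hd hxC' hxb' hx0
    hind' with ⟨y, ik, hik, hOn, hOne⟩ | ⟨w', b, u, t, rn, y, i0, ik, hi0, hik, hrn, hnum⟩
  · exfalso
    obtain ⟨H, e, hH, hyH, h⟩ := exists_H_sub (k0 := k0) C hlines G hG hind hx0 hgen htr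
    have hinf : Infinite L := CharZero.infinite L
    have h1 : Exc 2 (mapF (algebraMap L (AlgebraicClosure L)) F) C
        (fun j => algebraMap L (AlgebraicClosure L) (x j)) :=
      exc_map _ hF hxC' ⟨y, ik, hik, hOn, pun_of_one (by norm_num) hOne⟩
    have h2 : mapF (algebraMap L (AlgebraicClosure L)) F =
        mapF (algebraMap ℂ (AlgebraicClosure L)) G := by
      funext a
      unfold mapF
      rw [hFG, map_map, ← IsScalarTower.algebraMap_eq]
    rw [h2] at h1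
    have hmap : ∀ q : MvPolynomial (Fin (n + 1)) ℂ,
        aeval (fun j => algebraMap L (AlgebraicClosure L) (x j)) q =
          algebraMap L (AlgebraicClosure L) (aeval x q) := fun q =>
      aeval_algebraMap_apply (AlgebraicClosure L) x q
    have h3 := h (AlgebraicClosure L) (fun j => algebraMap L (AlgebraicClosure L) (x j))
      (fun h0 => by
        have h4 := congrFun h0 j0
        simp only [hx1, map_one, Pi.zero_apply] at h4
        exact one_ne_zero h4) (fun b hb => by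
        unfold mapF
        rw [eval_map]
        have h4 := hmap (G b)
        rw [aeval_def] at h4
        rw [h4]
        exact (map_ne_zero _).2 (hxb b hb)) h1
    rw [hmap] at h3
    exact (map_ne_zero _).2 hyH h3
  have hcard := hrn.card
  simp only [Fintype.card_fin] at hcard
  have hbt : n + 1 + b + t ≤ ∑ a, dg a := by
    rcases hnum with h | h <;> omega
  have hut : u ≤ t := by
    rcases hnum with h | h <;> omega
  obtain ⟨h, hh⟩ : ∃ h, n + 1 + b + t + h = ∑ a, dg a :=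
    ⟨∑ a, dg a - (n + 1 + b + t), Nat.add_sub_cancel' hbt⟩
  obtain ⟨r, hr⟩ : ∃ r, u + r = t := ⟨t - u, Nat.add_sub_cancel' hut⟩
  obtain ⟨Φ, hlin, hΦE, hΦ⟩ := exists_phi hpos hF hD hp htr hS hl hE hFk hxC' hxb' hi0 hik rn hrn
    (h := h) (r := r) (by simpa only [Fintype.card_fin] using hh)
    (by simpa only [Fintype.card_fin] using hr)
  -- the normalised point
  obtain ⟨z, hz⟩ : ∃ z : Fin (n + 1) → L, z = nx x i0 := ⟨_, rfl⟩
  have hzx : ∀ j, z j = (x i0)⁻¹ * x j := by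
    intro j
    rw [hz, nx, div_eq_inv_mul]
  have hz1 : z i0 = 1 := by
    rw [hzx, inv_mul_cancel₀ hi0]
  have hzpo : ∀ Q : Place ℂ L, pord Q z = pord Q x - Q.ord (x i0) := by
    intro Q
    have h1 := pord_scale Q (f := x) ⟨i0, hi0⟩ (inv_ne_zero hi0)
    have h2 : (fun j => (x i0)⁻¹ * x j) = z := funext fun j => (hzx j).symm
    rw [h2, Q.ord_inv] at h1
    linarith
  have hz0 : ∀ Q : Place ℂ L, pord Q z ≤ 0 := by
    intro Q
    have h2 := pord_le Q (f := z) (j := i0) (by rw [hz1]; exact one_ne_zero)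
    rwa [hz1, Q.ord_one] at h2
  have hnp0 : ∀ Q : Place ℂ L, po Q (np x y ik) ≤ 0 := by
    intro Q
    have h1 : np x y ik ik = 1 := div_self hik
    have h2 := po_le Q (f := np x y ik) (j := ik) (by rw [h1]; exact one_ne_zero)
    rwa [h1, Q.ord_one] at h2
  have hevz : ∀ b, eval z (F b) = (x i0)⁻¹ ^ dg b * eval x (F b) := by
    intro b
    have h1 : z = (x i0)⁻¹ • x := funext hzx
    rw [h1, eval_smul_hom (hF b)]
  have hordz : ∀ (Q : Place ℂ L) b, b ∉ C →
      Q.ord (eval z (F b)) = dg b * pord Q z + mu G dg x Q b := by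
    intro Q b hb
    rw [hevz, Q.ord_mul (pow_ne_zero _ (inv_ne_zero hi0)) (hxb' b hb), Q.ord_pow, Q.ord_inv, hzpo]
    unfold mu
    rw [hev]
    ring
  have hz0b : ∀ b, b ∉ C → eval z (F b) ≠ 0 := fun b hb => by
    rw [hevz]
    exact mul_ne_zero (pow_ne_zero _ (inv_ne_zero hi0)) (hxb' b hb)
  -- the exponents
  obtain ⟨N, hN⟩ : ∃ N : ℕ, N = ∏ a, m a := ⟨_, rfl⟩
  have hN0 : 0 < N := by
    rw [hN]
    exact Finset.prod_pos fun a _ => hm a
  have hdvd : ∀ a, m a ∣ N := fun a => hN ▸ Finset.dvd_prod_of_mem _ (Finset.mem_univ a)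
  choose cc hcc using hdvd
  have hccq : ∀ a, (cc a : ℚ) = N / m a := fun a => by
    have h1 : (m a : ℚ) ≠ 0 := by have := hm a; positivity
    rw [hcc a]
    push_cast
    field_simp
  have hccr : ∀ a, (cc a : ℝ) = N / m a := fun a => by
    have h1 : (m a : ℝ) ≠ 0 := by have := hm a; positivity
    rw [eq_div_iff h1, hcc a]
    push_cast
    ring
  have htw : ∑ b ∈ Cᶜ, cc b * dg b + 1 ≤ N * h := by
    have h1 : (∑ b ∈ Cᶜ, (dg b : ℚ) / m b) < h := by
      have h2 : ((∑ a, dg a : ℕ) : ℚ) = n + 1 + b + t + h := by exact_mod_cast hh.symm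
      have h3 : ((C.card : ℚ) + 1 + (p + w') + 2 * b + u + t) = n + 1 := by exact_mod_cast hcard
      have h4 : (0 : ℚ) ≤ w' := by positivity
      have h5 : (0 : ℚ) ≤ b := by positivity
      have h6 : (0 : ℚ) ≤ u := by positivity
      rw [h2] at hT
      linarith
    have h4 : ((∑ b ∈ Cᶜ, cc b * dg b : ℕ) : ℚ) < ((N * h : ℕ) : ℚ) := by
      push_cast
      have h5 : ∑ b ∈ Cᶜ, (cc b : ℚ) * dg b = N * ∑ b ∈ Cᶜ, (dg b : ℚ) / m b := by
        rw [Finset.mul_sum]
        refine Finset.sum_congr rfl fun b _ => ?_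
        rw [hccq]
        ring
      rw [h5]
      exact mul_lt_mul_of_pos_left h1 (by exact_mod_cast hN0)
    have h6 : ∑ b ∈ Cᶜ, cc b * dg b < N * h := by exact_mod_cast h4
    omega
  have htwr : (∑ b ∈ Cᶜ, (cc b : ℝ) * dg b) + 1 ≤ N * h := by exact_mod_cast htw
  have hgen' : Algebra.IsAlgebraic (coords ℂ z) L := by
    refine alg_of_coords hgen ?_
    unfold coords
    rw [IntermediateField.adjoin_le_iff]
    rintro f ⟨i, j, hj, rfl⟩
    refine IntermediateField.subset_adjoin _ _ ⟨i, j, ?_, ?_⟩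
    · rw [hzx]
      exact mul_ne_zero (inv_ne_zero hi0) hj
    · rw [hzx, hzx, mul_div_mul_left _ _ (inv_ne_zero hi0)]
  obtain ⟨l', hl'⟩ := exists_coord_basis htr hgen'
  obtain ⟨g, hg0, hgs⟩ : ∃ g : Fin (p + 1) → L, g 0 = 1 ∧ ∀ i : Fin p, g i.succ = z (l' i) :=
    ⟨Fin.cases 1 fun i => z (l' i), rfl, fun _ => rfl⟩
  have hPi : (∏ b ∈ Cᶜ, eval z (F b) ^ cc b) ≠ 0 := Finset.prod_ne_zero_iff.2 fun b hb =>
    pow_ne_zero _ (hz0b b (Finset.mem_compl.1 hb))
  refine ⟨N, hN0, fun j D' => Φ D' ^ N * ((∏ b ∈ Cᶜ, eval z (F b) ^ cc b) * g j),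
    fun j => ⟨fun M D' => ?_, fun v hv hvd D' hD' => ?_⟩, E, ?_, ?_⟩
  · change Φ _ ^ N * _ = _
    rw [hlin M (fun i => ∑ j, M i j • D' j) D' fun i f => ?_, mul_pow]
    · ring
    · rw [← Derivation.coeFnAddMonoidHom_apply, map_sum, Finset.sum_apply]
      rfl
  · change GO v (-(N * B v)) (Φ D' ^ N * ((∏ b ∈ Cᶜ, eval z (F b) ^ cc b) * g j))
    have hpz : (pord v z : ℝ) ≤ 0 := by exact_mod_cast hz0 v
    have hg' : GO v (pord v z) (g j) := by
      refine Fin.cases ?_ (fun i => ?_) j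
      · rw [hg0]
        exact GO.one.mono hpz
      · rw [hgs]
        rcases ge_pord v z (l' i) with h1 | h1
        · exact Or.inl h1
        · right
          exact_mod_cast h1
    have hprod : GO v (∑ b ∈ Cᶜ, (cc b : ℝ) * ((dg b : ℝ) * pord v z + mu G dg x v b))
        (∏ b ∈ Cᶜ, eval z (F b) ^ cc b) := by
      refine GO.prod _ fun b hb => ?_
      refine GO.pow (GO.of_ord (le_of_eq ?_)) _
      rw [hordz v b (Finset.mem_compl.1 hb)]
      push_cast
      ring
    have hsplit : ∑ b ∈ Cᶜ, (cc b : ℝ) * ((dg b : ℝ) * pord v z + mu G dg x v b) =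
        (∑ b ∈ Cᶜ, (cc b : ℝ) * dg b) * pord v z + ∑ b ∈ Cᶜ, (cc b : ℝ) * mu G dg x v b := by
      rw [Finset.sum_mul, ← Finset.sum_add_distrib]
      exact Finset.sum_congr rfl fun b _ => by ring
    have hNr : (0 : ℝ) < N := by exact_mod_cast hN0
    have hkey : 0 ≤ -(pord v z : ℝ) * (N * h - (∑ b ∈ Cᶜ, (cc b : ℝ) * dg b) - 1) :=
      mul_nonneg (by linarith) (by linarith)
    have hrpo : (r : ℤ) * po v (np x y ik) ≤ 0 := mul_nonpos_of_nonneg_of_nonpos
      (by positivity) (hnp0 v)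
    rcases hB v hv hvd with h0 | h1
    · have h2 : Ge v (-(h * pord v z)) (Φ D') := by
        have h3 := hΦ v hvd D' (Or.inl ⟨hD', fun b hb => ?_⟩)
        · rw [← hz] at h3
          exact h3.mono (by linarith)
        · have h4 := h0 b hb
          unfold mu at h4
          rw [hev] at h4
          linarith
      have h3 : GO v (-(h * pord v z)) (Φ D') := by
        rcases h2 with h2 | h2
        · exact Or.inl h2
        · right
          exact_mod_cast h2
      refine ((h3.pow N).mul (hprod.mul hg')).mono ?_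
      have h4 : ∑ b ∈ Cᶜ, (cc b : ℝ) * mu G dg x v b = 0 := Finset.sum_eq_zero fun b hb => by
        rw [h0 b (Finset.mem_compl.1 hb), Int.cast_zero, mul_zero]
      rw [hsplit, h4]
      have h5 := mul_nonneg hNr.le (hB0 v hv)
      nlinarith
    · have h2 : Ge v (-(h * pord v z) - 1) (Φ D') := by
        refine reg_of_log htr hvd hlin (fun Dd hDd => ?_) hD'
        have h3 := hΦ v hvd Dd (Or.inr hDd)
        rw [← hz] at h3
        exact h3.mono (by linarith)
      have h3 : GO v (-(h * pord v z) - 1) (Φ D') := by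
        rcases h2 with h2 | h2
        · exact Or.inl h2
        · right
          exact_mod_cast h2
      refine ((h3.pow N).mul (hprod.mul hg')).mono ?_
      have h4 : ∑ b ∈ Cᶜ, (cc b : ℝ) * mu G dg x v b =
          N * ∑ b ∈ Cᶜ, (mu G dg x v b : ℝ) / m b := by
        rw [Finset.mul_sum]
        refine Finset.sum_congr rfl fun b _ => ?_
        rw [hccr]
        ring
      have h5 := mul_le_mul_of_nonneg_left h1 hNr.le
      rw [hsplit, h4]
      nlinarith
  · change Φ E ^ N * ((∏ b ∈ Cᶜ, eval z (F b) ^ cc b) * g 0) ≠ 0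
    rw [hg0, mul_one]
    exact mul_ne_zero (pow_ne_zero _ hΦE) hPi
  · have h1 : (fun i : Fin p => Φ E ^ N * ((∏ b ∈ Cᶜ, eval z (F b) ^ cc b) * g i.succ) /
        (Φ E ^ N * ((∏ b ∈ Cᶜ, eval z (F b) ^ cc b) * g 0))) = fun i => z (l' i) := by
      funext i
      rw [mul_div_mul_left _ _ (pow_ne_zero _ hΦE), mul_div_mul_left _ _ hPi, hg0, div_one, hgs]
    change AlgebraicIndependent ℂ (fun i : Fin p =>
      Φ E ^ N * ((∏ b ∈ Cᶜ, eval z (F b) ^ cc b) * g i.succ) /
        (Φ E ^ N * ((∏ b ∈ Cᶜ, eval z (F b) ^ cc b) * g 0)))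
    rw [h1]
    exact hl'.1

end

end Pool.Agent.V8H90.VG
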