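import Pool.Agent.V8H90.VG.Gen

/-!
The orbifold base is of general type: arbitrary projective varieties and generic hypersurfaces.
-/

set_option autoImplicit false

open MvPolynomial FF Pool.Agent.W603.LV Pool.Agent.W603.PV Pool.Agent.TH145.GH
open Pool.Agent.TH145.GD (St)
open Pool.Agent.W602.GT Pool.Agent.TH145.MG Pool.Agent.TH145.GE Pool.Agent.TH145.GF
open Pool.Agent.V8H90.AJ (GO)

namespace Pool.Agent.V8H90.VG

section

variable {n p : ℕ} {A : Type} [Fintype A] [DecidableEq A] {dg : A → ℕ} {L : Type} [Field L]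
  [Algebra ℂ L]

/-- From the determinant form to the pluricanonical forms. -/
theorem base_of_phi [Algebra.EssFiniteType ℂ L] {G : A → MvPolynomial (Fin (n + 1)) ℂ}
    (htr : Algebra.trdeg ℂ L = p) {x : Fin (n + 1) → L} {j0 : Fin (n + 1)} (hx1 : x j0 = 1)
    (hgen : Algebra.IsAlgebraic (coords ℂ x) L) {C : Finset A}
    (hxb : ∀ b, b ∉ C → aeval x (G b) ≠ 0) {m : A → ℕ} (hm : ∀ b, 1 ≤ m b) {h : ℕ}
    (hh : ∑ b ∈ Cᶜ, (dg b : ℚ) / m b < h) {Φ : (Fin p → Derivation ℂ L L) → L}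
    {E : Fin p → Derivation ℂ L L}
    (hlin : ∀ (M : Matrix (Fin p) (Fin p) L) (D1 D2 : Fin p → Derivation ℂ L L),
      (∀ i f, D1 i f = ∑ j, M i j * D2 j f) → Φ D1 = M.det * Φ D2) (hΦE : Φ E ≠ 0)
    (hΦ : ∀ (Q : Place ℂ L), Divisorial p Q → ∀ (Dd : Fin p → Derivation ℂ L L),
        (((∀ i, DerReg Q (Dd i)) ∧ ∀ a, a ∉ C → Q.ord (aeval x (G a)) = dg a * pord Q x) ∨
          ∀ i, DerLog Q (Dd i)) → Ge Q (-(h * pord Q x)) (Φ Dd))
    {X : Set (Place ℂ L)} {B : Place ℂ L → ℝ} (hB0 : ∀ v ∈ X, 0 ≤ B v)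
    (hB : ∀ v ∈ X, Divisorial p v → (∀ b, b ∉ C → mu G dg x v b = 0) ∨
      1 - B v ≤ ∑ b ∈ Cᶜ, (mu G dg x v b : ℝ) / m b) :
    Pool.Agent.Y191.KodairaGe p X B p := by
  classical
  have hLz : CharZero L := charZero_of_injective_algebraMap (algebraMap ℂ L).injective
  have hz0 : ∀ Q : Place ℂ L, pord Q x ≤ 0 := by
    intro Q
    have h2 := pord_le Q (f := x) (j := j0) (by rw [hx1]; exact one_ne_zero)
    rwa [hx1, Q.ord_one] at h2
  have hordz : ∀ (Q : Place ℂ L) b,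
      Q.ord (aeval x (G b)) = dg b * pord Q x + mu G dg x Q b := by
    intro Q b
    unfold mu
    ring
  -- the exponents
  obtain ⟨N, hN⟩ : ∃ N : ℕ, N = ∏ a, m a := ⟨_, rfl⟩
  have hN0 : 0 < N := by
    rw [hN]
    exact Finset.prod_pos fun a _ => hm a
  have hdvd : ∀ a, m a ∣ N := fun a => hN ▸ Finset.dvd_prod_of_mem _ (Finset.mem_univ a)
  choose cc hcc using hdvd
  have hccq : ∀ a, (cc a : ℚ) = N / m a := fun a => by
    have h1 : (m a : ℚ) ≠ 0 := by have := hm a; positivity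
    rw [hcc a]
    push_cast
    field_simp
  have hccr : ∀ a, (cc a : ℝ) = N / m a := fun a => by
    have h1 : (m a : ℝ) ≠ 0 := by have := hm a; positivity
    rw [eq_div_iff h1, hcc a]
    push_cast
    ring
  have htw : ∑ b ∈ Cᶜ, cc b * dg b + 1 ≤ N * h := by
    have h4 : ((∑ b ∈ Cᶜ, cc b * dg b : ℕ) : ℚ) < ((N * h : ℕ) : ℚ) := by
      push_cast
      have h5 : ∑ b ∈ Cᶜ, (cc b : ℚ) * dg b = N * ∑ b ∈ Cᶜ, (dg b : ℚ) / m b := by
        rw [Finset.mul_sum]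
        refine Finset.sum_congr rfl fun b _ => ?_
        rw [hccq]
        ring
      rw [h5]
      exact mul_lt_mul_of_pos_left hh (by exact_mod_cast hN0)
    have h6 : ∑ b ∈ Cᶜ, cc b * dg b < N * h := by exact_mod_cast h4
    omega
  have htwr : (∑ b ∈ Cᶜ, (cc b : ℝ) * dg b) + 1 ≤ N * h := by exact_mod_cast htw
  obtain ⟨l', hl'⟩ := exists_coord_basis htr hgen
  obtain ⟨g, hg0, hgs⟩ : ∃ g : Fin (p + 1) → L, g 0 = 1 ∧ ∀ i : Fin p, g i.succ = x (l' i) :=
    ⟨Fin.cases 1 fun i => x (l' i), rfl, fun _ => rfl⟩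
  have hPi : (∏ b ∈ Cᶜ, aeval x (G b) ^ cc b) ≠ 0 := Finset.prod_ne_zero_iff.2 fun b hb =>
    pow_ne_zero _ (hxb b (Finset.mem_compl.1 hb))
  refine ⟨N, hN0, fun j D' => Φ D' ^ N * ((∏ b ∈ Cᶜ, aeval x (G b) ^ cc b) * g j),
    fun j => ⟨fun M D' => ?_, fun v hv hvd D' hD' => ?_⟩, E, ?_, ?_⟩
  · change Φ _ ^ N * _ = _
    rw [hlin M (fun i => ∑ j, M i j • D' j) D' fun i f => ?_, mul_pow]
    · ring
    · rw [← Derivation.coeFnAddMonoidHom_apply, map_sum, Finset.sum_apply]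
      rfl
  · change GO v (-(N * B v)) (Φ D' ^ N * ((∏ b ∈ Cᶜ, aeval x (G b) ^ cc b) * g j))
    have hpz : (pord v x : ℝ) ≤ 0 := by exact_mod_cast hz0 v
    have hg' : GO v (pord v x) (g j) := by
      refine Fin.cases ?_ (fun i => ?_) j
      · rw [hg0]
        exact GO.one.mono hpz
      · rw [hgs]
        rcases ge_pord v x (l' i) with h1 | h1
        · exact Or.inl h1
        · right
          exact_mod_cast h1
    have hprod : GO v (∑ b ∈ Cᶜ, (cc b : ℝ) * ((dg b : ℝ) * pord v x + mu G dg x v b))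
        (∏ b ∈ Cᶜ, aeval x (G b) ^ cc b) := by
      refine GO.prod _ fun b hb => ?_
      refine GO.pow (GO.of_ord (le_of_eq ?_)) _
      rw [hordz v b]
      push_cast
      ring
    have hsplit : ∑ b ∈ Cᶜ, (cc b : ℝ) * ((dg b : ℝ) * pord v x + mu G dg x v b) =
        (∑ b ∈ Cᶜ, (cc b : ℝ) * dg b) * pord v x + ∑ b ∈ Cᶜ, (cc b : ℝ) * mu G dg x v b := by
      rw [Finset.sum_mul, ← Finset.sum_add_distrib]
      exact Finset.sum_congr rfl fun b _ => by ring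
    have hNr : (0 : ℝ) < N := by exact_mod_cast hN0
    have hkey : 0 ≤ -(pord v x : ℝ) * (N * h - (∑ b ∈ Cᶜ, (cc b : ℝ) * dg b) - 1) :=
      mul_nonneg (by linarith) (by linarith)
    rcases hB v hv hvd with h0 | h1
    · have h2 : Ge v (-(h * pord v x)) (Φ D') := by
        refine hΦ v hvd D' (Or.inl ⟨hD', fun b hb => ?_⟩)
        rw [hordz, h0 b hb, add_zero]
      have h3 : GO v (-(h * pord v x)) (Φ D') := by
        rcases h2 with h2 | h2
        · exact Or.inl h2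
        · right
          exact_mod_cast h2
      refine ((h3.pow N).mul (hprod.mul hg')).mono ?_
      have h4 : ∑ b ∈ Cᶜ, (cc b : ℝ) * mu G dg x v b = 0 := Finset.sum_eq_zero fun b hb => by
        rw [h0 b (Finset.mem_compl.1 hb), Int.cast_zero, mul_zero]
      rw [hsplit, h4]
      have h5 := mul_nonneg hNr.le (hB0 v hv)
      nlinarith
    · have h2 : Ge v (-(h * pord v x) - 1) (Φ D') := by
        refine reg_of_log htr hvd hlin (fun Dd hDd => ?_) hD'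
        exact hΦ v hvd Dd (Or.inr hDd)
      have h3 : GO v (-(h * pord v x) - 1) (Φ D') := by
        rcases h2 with h2 | h2
        · exact Or.inl h2
        · right
          exact_mod_cast h2
      refine ((h3.pow N).mul (hprod.mul hg')).mono ?_
      have h4 : ∑ b ∈ Cᶜ, (cc b : ℝ) * mu G dg x v b =
          N * ∑ b ∈ Cᶜ, (mu G dg x v b : ℝ) / m b := by
        rw [Finset.mul_sum]
        refine Finset.sum_congr rfl fun b _ => ?_
        rw [hccr]
        ring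
      have h5 := mul_le_mul_of_nonneg_left h1 hNr.le
      rw [hsplit, h4]
      nlinarith
  · change Φ E ^ N * ((∏ b ∈ Cᶜ, aeval x (G b) ^ cc b) * g 0) ≠ 0
    rw [hg0, mul_one]
    exact mul_ne_zero (pow_ne_zero _ hΦE) hPi
  · have h1 : (fun i : Fin p => Φ E ^ N * ((∏ b ∈ Cᶜ, aeval x (G b) ^ cc b) * g i.succ) /
        (Φ E ^ N * ((∏ b ∈ Cᶜ, aeval x (G b) ^ cc b) * g 0))) = fun i => x (l' i) := by
      funext i
      rw [mul_div_mul_left _ _ (pow_ne_zero _ hΦE), mul_div_mul_left _ _ hPi, hg0, div_one, hgs]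
    change AlgebraicIndependent ℂ (fun i : Fin p =>
      Φ E ^ N * ((∏ b ∈ Cᶜ, aeval x (G b) ^ cc b) * g i.succ) /
        (Φ E ^ N * ((∏ b ∈ Cᶜ, aeval x (G b) ^ cc b) * g 0)))
    rw [h1]
    exact hl'.1

/-- The numbers. -/
theorem num_gen {C : Finset A} {m : A → ℕ} {r h : ℕ}
    (hT : (2 * r + 1 : ℚ) < ∑ c ∈ C, ((dg c : ℚ) + 1) + ∑ b ∈ Cᶜ, (dg b : ℚ) * (1 - 1 / m b) + p)
    (hh : ∑ a, dg a + C.card + p ≤ h + 2 * r + 1) : ∑ b ∈ Cᶜ, (dg b : ℚ) / m b < h := by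
  have hsum : ∑ c ∈ C, ((dg c : ℚ) + 1) + ∑ b ∈ Cᶜ, (dg b : ℚ) * (1 - 1 / m b) =
      ((∑ a, dg a : ℕ) : ℚ) + C.card - ∑ b ∈ Cᶜ, (dg b : ℚ) / m b := by
    have h1 : ((∑ a, dg a : ℕ) : ℚ) = ∑ c ∈ C, (dg c : ℚ) + ∑ b ∈ Cᶜ, (dg b : ℚ) := by
      rw [Finset.sum_add_sum_compl, Nat.cast_sum]
    have h2 : ∑ b ∈ Cᶜ, (dg b : ℚ) * (1 - 1 / m b) =
        ∑ b ∈ Cᶜ, (dg b : ℚ) - ∑ b ∈ Cᶜ, (dg b : ℚ) / m b := by
      rw [← Finset.sum_sub_distrib]
      exact Finset.sum_congr rfl fun b _ => by ring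
    rw [h1, h2, Finset.sum_add_distrib, Finset.sum_const, nsmul_eq_mul, mul_one]
    ring
  rw [hsum] at hT
  have h1 : (((∑ a, dg a + C.card + p : ℕ) : ℚ)) ≤ ((h + 2 * r + 1 : ℕ) : ℚ) := by
    exact_mod_cast hh
  push_cast at h1
  push_cast at hT
  linarith

theorem num_gen' {C : Finset A} {m : A → ℕ} {r : ℕ}
    (hT : (2 * r + 1 : ℚ) < ∑ c ∈ C, ((dg c : ℚ) + 1) + ∑ b ∈ Cᶜ, (dg b : ℚ) * (1 - 1 / m b) + p) :
    2 * r + 1 ≤ ∑ a, dg a + C.card + p := by
  by_contra hcon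
  push Not at hcon
  have h1 := num_gen (h := 0) hT (by omega)
  have h2 : (0 : ℚ) ≤ ∑ b ∈ Cᶜ, (dg b : ℚ) / m b := Finset.sum_nonneg fun b _ => by positivity
  push_cast at h1
  linarith

end

section

open Pool.Agent.Y191 Pool.Agent.Y172 Pool.Agent.V8H50.MA

variable {n p : ℕ} {A : Type} {dg : A → ℕ} {K : Type} [Field K] [Algebra ℂ K]

/-- The normalised point over the subfield. -/
theorem exists_norm {G : A → MvPolynomial (Fin (n + 1)) ℂ}
    (hG : ∀ a, (G a).IsHomogeneous (dg a)) {L : IntermediateField ℂ K} {b : Fin (n + 1) → K}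
    {j0 : Fin (n + 1)} (hj0 : b j0 ≠ 0) (hbL : ∀ j, b j / b j0 ∈ L)
    (halg : ∀ f ∈ L, IsAlgebraic (RF ℂ b) f) :
    ∃ x : Fin (n + 1) → L, x j0 = 1 ∧ Algebra.IsAlgebraic (coords ℂ x) L ∧
      (∀ (f : MvPolynomial (Fin (n + 1)) ℂ) (e : ℕ), f.IsHomogeneous e →
        ((aeval x f : L) : K) = (b j0)⁻¹ ^ e * aeval b f) ∧
      ∀ (P : Place ℂ K) (v : Place ℂ L) (e : ℕ), Over P v e → ∀ a, aeval b (G a) ≠ 0 →
        mu G dg b P a = e * mu G dg x v a := by
  obtain ⟨x, hx⟩ : ∃ x : Fin (n + 1) → L, ∀ j, (x j : K) = b j / b j0 :=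
    ⟨fun j => ⟨_, hbL j⟩, fun _ => rfl⟩
  have hx1 : x j0 = 1 := Subtype.ext (by rw [hx, div_self hj0]; rfl)
  have hxne : ∃ j, x j ≠ 0 := ⟨j0, by rw [hx1]; exact one_ne_zero⟩
  have hxK : (fun j => (x j : K)) = fun j => (b j0)⁻¹ * b j := by
    funext j
    rw [hx, div_eq_inv_mul]
  have hb0 : ∃ j, b j ≠ 0 := ⟨j0, hj0⟩
  refine ⟨x, hx1, ?_, fun f e hf => ?_, fun P v e h a ha => ?_⟩
  · refine ⟨fun f => ?_⟩
    have h1 := halg (f : K) f.2
    have h2 : RF ℂ b ≤ (coords ℂ x).map L.val := by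
      unfold RF
      rw [IntermediateField.adjoin_le_iff]
      rintro g ⟨i, j, hj, rfl⟩
      refine ⟨x i / x j, IntermediateField.subset_adjoin _ _ ⟨i, j, fun h0 => hj ?_, rfl⟩, ?_⟩
      · have h3 := hx j
        rw [h0] at h3
        have h4 : b j / b j0 = 0 := h3.symm
        exact (div_eq_zero_iff.1 h4).resolve_right hj0
      · change ((x i / x j : L) : K) = _
        push_cast
        rw [hx, hx, div_div_div_cancel_right₀ hj0]
    have h3 : coords ℂ x ≤ (RF ℂ b).comap L.val := by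
      unfold coords
      rw [IntermediateField.adjoin_le_iff]
      rintro g ⟨i, j, hj, rfl⟩
      change ((x i / x j : L) : K) ∈ RF ℂ b
      push_cast
      rw [hx, hx, div_div_div_cancel_right₀ hj0]
      refine IntermediateField.subset_adjoin _ _ ⟨i, j, fun h0 => hj ?_, rfl⟩
      apply Subtype.ext
      rw [hx, h0, zero_div]
      rfl
    let φ : coords ℂ x →+* RF ℂ b :=
      ((algebraMap L K).comp (algebraMap (coords ℂ x) L)).codRestrict (RF ℂ b) fun c => h3 c.2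
    have hφ : Function.Surjective φ := by
      rintro ⟨g, hg⟩
      obtain ⟨c, hc, hcg⟩ := h2 hg
      exact ⟨⟨c, hc⟩, Subtype.ext hcg⟩
    have h4 : IsAlgebraic (RF ℂ b) (algebraMap L K f) := h1
    exact h4.of_ringHom_of_comp_eq φ (algebraMap L K) hφ (algebraMap L K).injective rfl
  · have h1 : ((aeval x f : L) : K) = aeval (fun j => (x j : K)) f := by
      have h2 := aeval_algebraMap_apply K x f
      exact h2.symm
    rw [h1, hxK]
    have h2 : ∀ z : Fin (n + 1) → K, aeval z f = eval z (map (algebraMap ℂ K) f) := by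
      intro z
      rw [eval_map]
      rfl
    rw [h2, h2]
    exact Pool.Agent.TH145.GH.eval_smul_hom (hf.map _) b (b j0)⁻¹
  · rw [← mu_over h hxne a, hxK, mu_scale hG hb0 (inv_ne_zero hj0) P ha]

end

section

open Pool.Agent.Y191 Pool.Agent.Y172 Pool.Agent.V8H50.MA

variable {k0 : Type} [Field k0] [Algebra k0 ℂ] {n p r : ℕ} {A : Type} [Fintype A] [DecidableEq A]
  {dg : A → ℕ}

/-- The ratios of the coefficients are algebraically independent. -/
def Gnr (k0 : Type) [Field k0] [Algebra k0 ℂ] (G : A → MvPolynomial (Fin (n + 1)) ℂ)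
    (dg : A → ℕ) : Prop :=
  (∀ a, (G a).IsHomogeneous (dg a)) ∧ ∃ I0 : ∀ a, {I : Fin (n + 1) →₀ ℕ // I.degree = dg a},
    (∀ a, (G a).coeff (I0 a).1 ≠ 0) ∧ AlgebraicIndependent k0
      fun p : (a : A) × {I : {I : Fin (n + 1) →₀ ℕ // I.degree = dg a} // I ≠ I0 a} =>
        (G p.1).coeff p.2.1.1 / (G p.1).coeff (I0 p.1).1

/-- **The orbifold base is of general type.** -/
theorem base_gen {K : Type} [Field K] [Algebra ℂ K] (hess : Algebra.EssFiniteType ℂ K)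
    {G : A → MvPolynomial (Fin (n + 1)) ℂ} (hgen : Gnr k0 G dg)
    {V : Set (MvPolynomial (Fin (n + 1)) k0)} (hVh : ∀ f ∈ V, ∃ e, f.IsHomogeneous e)
    (hV : DimLE k0 V r) {C : Finset A} (hp : 0 < p)
    {L : IntermediateField ℂ K} (htr : Algebra.trdeg ℂ L = p) {b : Fin (n + 1) → K}
    {j0 : Fin (n + 1)} (hj0 : b j0 ≠ 0) (hbL : ∀ j, b j / b j0 ∈ L)
    (halg : ∀ f ∈ L, IsAlgebraic (RF ℂ b) f)
    (hxV : ∀ f ∈ V, aeval b (map (algebraMap k0 ℂ) f) = 0)
    (hxC : ∀ c ∈ C, aeval b (G c) = 0) (hxb : ∀ a, a ∉ C → aeval b (G a) ≠ 0)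
    {m : A → ℕ} (hm : ∀ b, 1 ≤ m b)
    (hT : (2 * r + 1 : ℚ) < ∑ c ∈ C, ((dg c : ℚ) + 1) + ∑ b ∈ Cᶜ, (dg b : ℚ) * (1 - 1 / m b) + p)
    {X : Set (Place ℂ K)} {δ : Place ℂ K → ℝ} (hδ : ∀ P ∈ X, 0 ≤ δ P)
    (hmul : ∀ P ∈ X, MulOK G dg m C b (1 - δ P) P) :
    KodairaGe p (und L X) (orb L X δ) p := by
  classical
  obtain ⟨hG, I0, h0, hind⟩ := hgen
  have hessL : Algebra.EssFiniteType ℂ L := ess_sub hess L
  obtain ⟨x, hx1, hxg, hev, hmu⟩ := exists_norm hG hj0 hbL halg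
  have hfin := fun a => Pool.Agent.TH145.GH.finite_deg n (dg a)
  have hft : ∀ a, Fintype {I : Fin (n + 1) →₀ ℕ // I.degree = dg a} := fun a => Fintype.ofFinite _
  have hxV' : ∀ f ∈ V, aeval x (map (algebraMap k0 ℂ) f) = 0 := fun f hf => by
    obtain ⟨e, he⟩ := hVh f hf
    apply Subtype.ext
    rw [hev _ e (he.map _), hxV f hf, mul_zero]
    rfl
  have hxC' : ∀ c ∈ C, aeval x (G c) = 0 := fun c hc => by
    apply Subtype.ext
    rw [hev _ _ (hG c), hxC c hc, mul_zero]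
    rfl
  have hxb' : ∀ a, a ∉ C → aeval x (G a) ≠ 0 := fun a ha h => by
    have h1 := hev _ _ (hG a)
    rw [h] at h1
    exact mul_ne_zero (pow_ne_zero _ (inv_ne_zero hj0)) (hxb a ha) h1.symm
  have hsum : ∀ a, G a = ∑ I : {I : Fin (n + 1) →₀ ℕ // I.degree = dg a},
      MvPolynomial.C ((G a).coeff I.1) * map (algebraMap k0 ℂ) (monomial I.1 1) := by
    intro a
    ext u
    rw [coeff_sum]
    simp only [MvPolynomial.map_monomial, map_one, coeff_C_mul, coeff_monomial, mul_ite, mul_one, mul_zero]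
    by_cases hu : u.degree = dg a
    · rw [Finset.sum_eq_single ⟨u, hu⟩]
      · rw [if_pos rfl]
      · rintro ⟨w, hw⟩ - hne
        rw [if_neg]
        rintro rfl
        exact hne rfl
      · intro hne
        exact absurd (Finset.mem_univ _) hne
    · rw [Finset.sum_eq_zero]
      · exact (hG a).coeff_eq_zero hu
      · rintro ⟨w, hw⟩ -
        rw [if_neg]
        rintro rfl
        exact hu hw
  obtain ⟨h, Φ, E, hh, hlin, hΦE, hΦ⟩ := phi_gen (K := ℂ) V hVh hV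
    (J := fun a => {I : Fin (n + 1) →₀ ℕ // I.degree = dg a})
    (fun a I => monomial I.1 1) (fun a I => isHomogeneous_monomial _ I.2)
    (fun a I => (G a).coeff I.1) I0 h0 hind j0
    (fun a I hI => ⟨⟨I, Pool.Agent.TH145.GD.deg_St hI⟩, rfl⟩) (F := G) hsum C hp
    (num_gen' hT) htr x hx1 hxg hxV' hxC' hxb'
  refine base_of_phi htr hx1 hxg hxb' hm (num_gen hT hh) hlin hΦE hΦ
    (fun v hv => orb_nonneg hδ hv) fun v hv _ => ?_
  by_cases h0 : ∀ a, a ∉ C → mu G dg x v a = 0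
  · exact Or.inl h0
  · right
    refine orb_ge hv fun P hP e h => ?_
    rcases hmul P hP with h1 | h1
    · exfalso
      apply h0
      intro a ha
      have h2 := h1 a ha
      rw [hmu P v e h a (hxb a ha)] at h2
      have he : (e : ℤ) ≠ 0 := by have := h.1; positivity
      exact (mul_eq_zero.1 h2).resolve_left he
    · refine h1.trans (le_of_eq ?_)
      rw [Finset.mul_sum]
      refine Finset.sum_congr rfl fun a ha => ?_
      rw [hmu P v e h a (hxb a (Finset.mem_compl.1 ha))]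
      push_cast
      ring

end

end Pool.Agent.V8H90.VG
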