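import Pool.Agent.V8H90.VG.Tor

/-!
The main theorems for subfields with a point of a very general pair.
-/

set_option autoImplicit false

open MvPolynomial FF Pool.Agent.W603.LV Pool.Agent.W603.PV
open Pool.Agent.W602.GT Pool.Agent.TH585.SV Pool.Agent.Y172 Pool.Agent.Y191 Pool.Agent.V8H50.MA
open Pool.Agent.TH145.GF Pool.Agent.TH145.MG
open Pool.Agent.TH145.GC (Cf)
open Pool.Agent.V8H50.AF (ind ind_pos ind_neg)

namespace Pool.Agent.V8H90.VG

section

variable {k0 : Type} [Field k0] [Algebra k0 ℂ] {n p : ℕ} {A : Type} [Fintype A] [DecidableEq A]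
  {dg : A → ℕ} {K : Type} [Field K] [Algebra ℂ K]

/-- The multiplicities of the place in the hypersurfaces `G b = 0`, `b ∉ C`: they are all zero, or
the sum of their quotients by the `m b` is at least `c`. -/
def MulOK {L : Type} [Field L] [Algebra ℂ L] (G : A → MvPolynomial (Fin (n + 1)) ℂ) (dg m : A → ℕ)
    (C : Finset A) (x : Fin (n + 1) → L) (c : ℝ) (P : Place ℂ L) : Prop :=
  (∀ b, b ∉ C → mu G dg x P b = 0) ∨ c ≤ ∑ b ∈ Cᶜ, (mu G dg x P b : ℝ) / m b

/-- **The orbifold base is of general type.** -/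
theorem base_two (hess : Algebra.EssFiniteType ℂ K) (hn : 1 ≤ n) (hpos : ∀ a, 0 < dg a)
    {G : A → MvPolynomial (Fin (n + 1)) ℂ} (hG : ∀ a, (G a).IsHomogeneous (dg a))
    (hind : AlgebraicIndependent k0 fun p : Cf n dg => (G p.1).coeff p.2.1)
    {C : Finset A} (hC : ∃ b, b ∉ C) (hd : 3 * n + 3 ≤ 2 * ∑ a, dg a + C.card) (hp : 0 < p)
    {L : IntermediateField ℂ K} (htr : Algebra.trdeg ℂ L = p) {b : Fin (n + 1) → K}
    {j0 : Fin (n + 1)} (hj0 : b j0 ≠ 0) (hbL : ∀ j, b j / b j0 ∈ L)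
    (halg : ∀ f ∈ L, IsAlgebraic (RF ℂ b) f)
    (hxC : ∀ c ∈ C, aeval b (G c) = 0) (hxb : ∀ a, a ∉ C → aeval b (G a) ≠ 0)
    {m : A → ℕ} (hm : ∀ b, 1 ≤ m b)
    (hT : (2 * n + 1 : ℚ) < ∑ c ∈ C, ((dg c : ℚ) + 1) + ∑ b ∈ Cᶜ, (dg b : ℚ) * (1 - 1 / m b) + p)
    {X : Set (Place ℂ K)} {δ : Place ℂ K → ℝ} (hδ : ∀ P ∈ X, 0 ≤ δ P)
    (hmul : ∀ P ∈ X, MulOK G dg m C b (1 - δ P) P) :
    KodairaGe p (und L X) (orb L X δ) p := by
  classical
  have hessL := ess_sub hess L
  obtain ⟨x, hx⟩ : ∃ x : Fin (n + 1) → L, ∀ j, (x j : K) = b j / b j0 :=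
    ⟨fun j => ⟨_, hbL j⟩, fun _ => rfl⟩
  have hx1 : x j0 = 1 := Subtype.ext (by rw [hx, div_self hj0]; rfl)
  have hxne : ∃ j, x j ≠ 0 := ⟨j0, by rw [hx1]; exact one_ne_zero⟩
  have hxK : (fun j => (x j : K)) = fun j => (b j0)⁻¹ * b j := by
    funext j
    rw [hx, div_eq_inv_mul]
  have hev : ∀ a, ((aeval x (G a) : L) : K) = (b j0)⁻¹ ^ dg a * aeval b (G a) := by
    intro a
    have h1 : ((aeval x (G a) : L) : K) = aeval (fun j => (x j : K)) (G a) := by
      have h2 := aeval_algebraMap_apply K x (G a)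
      exact h2.symm
    rw [h1, hxK]
    have h2 : ∀ z : Fin (n + 1) → K, aeval z (G a) = eval z (map (algebraMap ℂ K) (G a)) := by
      intro z
      rw [eval_map]
      rfl
    rw [h2, h2]
    exact Pool.Agent.TH145.GH.eval_smul_hom ((hG a).map _) b (b j0)⁻¹
  have hb0 : ∃ j, b j ≠ 0 := ⟨j0, hj0⟩
  have hmu : ∀ (P : Place ℂ K) (v : Place ℂ L) (e : ℕ), Over P v e → ∀ a, a ∉ C →
      mu G dg b P a = e * mu G dg x v a := by
    intro P v e h a ha
    rw [← mu_over h hxne a, hxK, mu_scale hG hb0 (inv_ne_zero hj0) P (hxb a ha)]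
  have hgen : Algebra.IsAlgebraic (coords ℂ x) L := by
    refine ⟨fun f => ?_⟩
    have h1 := halg (f : K) f.2
    have h2 : RF ℂ b ≤ (coords ℂ x).map L.val := by
      unfold RF
      rw [IntermediateField.adjoin_le_iff]
      rintro g ⟨i, j, hj, rfl⟩
      refine ⟨x i / x j, IntermediateField.subset_adjoin _ _ ⟨i, j, fun h0 => hj ?_, rfl⟩, ?_⟩
      · have h3 := hx j
        rw [h0] at h3
        have h4 : b j / b j0 = 0 := h3.symm
        exact (div_eq_zero_iff.1 h4).resolve_right hj0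
      · change ((x i / x j : L) : K) = _
        push_cast
        rw [hx, hx, div_div_div_cancel_right₀ hj0]
    have h3 : coords ℂ x ≤ (RF ℂ b).comap L.val := by
      unfold coords
      rw [IntermediateField.adjoin_le_iff]
      rintro g ⟨i, j, hj, rfl⟩
      change ((x i / x j : L) : K) ∈ RF ℂ b
      push_cast
      rw [hx, hx, div_div_div_cancel_right₀ hj0]
      refine IntermediateField.subset_adjoin _ _ ⟨i, j, fun h0 => hj ?_, rfl⟩
      apply Subtype.ext
      rw [hx, h0, zero_div]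
      rfl
    let φ : coords ℂ x →+* RF ℂ b :=
      ((algebraMap L K).comp (algebraMap (coords ℂ x) L)).codRestrict (RF ℂ b) fun c => h3 c.2
    have hφ : Function.Surjective φ := by
      rintro ⟨g, hg⟩
      obtain ⟨c, hc, hcg⟩ := h2 hg
      exact ⟨⟨c, hc⟩, Subtype.ext hcg⟩
    have h4 : IsAlgebraic (RF ℂ b) (algebraMap L K f) := h1
    exact h4.of_ringHom_of_comp_eq φ (algebraMap L K) hφ (algebraMap L K).injective rfl
  refine base_one hn hpos hG hind hC hd hp htr hx1 hgen (fun c hc => ?_) (fun a ha => ?_) hm hT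
    (fun v hv => orb_nonneg hδ hv) fun v hv _ => ?_
  · apply Subtype.ext
    rw [hev, hxC c hc, mul_zero]
    rfl
  · intro h0
    have h1 := hev a
    rw [h0] at h1
    exact mul_ne_zero (pow_ne_zero _ (inv_ne_zero hj0)) (hxb a ha) h1.symm
  · by_cases h0 : ∀ a, a ∉ C → mu G dg x v a = 0
    · exact Or.inl h0
    · right
      refine orb_ge hv fun P hP e h => ?_
      rcases hmul P hP with h1 | h1
      · exfalso
        apply h0
        intro a ha
        have h2 := h1 a ha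
        rw [hmu P v e h a ha] at h2
        have he : (e : ℤ) ≠ 0 := by have := h.1; positivity
        exact (mul_eq_zero.1 h2).resolve_left he
      · refine h1.trans (le_of_eq ?_)
        rw [Finset.mul_sum]
        refine Finset.sum_congr rfl fun a ha => ?_
        rw [hmu P v e h a (Finset.mem_compl.1 ha)]
        push_cast
        ring

end

end Pool.Agent.V8H90.VG
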