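import Pool.Agent.V8H90.VG.Base
import Pool.Agent.V8H90.AJ.WeakMain
import Pool.Agent.V8H50.MA.Comb

/-!
The orbifold base of a pair, and weak abundance for pairs with very affine fibres over a subfield.
-/

set_option autoImplicit false

open MvPolynomial FF Pool.Agent.W603.LV Pool.Agent.W603.PV
open Pool.Agent.W602.GT Pool.Agent.TH585.SV Pool.Agent.Y172 Pool.Agent.Y191 Pool.Agent.V8H50.MA
open Pool.Agent.TH145.GF
open Pool.Agent.TH145.GC (Cf)

namespace Pool.Agent.V8H90.VG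

section

variable {K : Type} [Field K] [Algebra ℂ K] {L : IntermediateField ℂ K}

/-- the values `(1 - δ P) / e` for the places `P` of `X` over `v` -/
def vals (L : IntermediateField ℂ K) (X : Set (Place ℂ K)) (δ : Place ℂ K → ℝ) (v : Place ℂ L) :
    Set ℝ := {c | ∃ P ∈ X, ∃ e, Over P v e ∧ c = (1 - δ P) / e}

/-- the orbifold base -/
noncomputable def orb (L : IntermediateField ℂ K) (X : Set (Place ℂ K)) (δ : Place ℂ K → ℝ)
    (v : Place ℂ L) : ℝ := 1 - sSup (vals L X δ v)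

variable {X : Set (Place ℂ K)} {δ : Place ℂ K → ℝ} {v : Place ℂ L}

theorem vals_ne (hv : v ∈ und L X) : (vals L X δ v).Nonempty := by
  obtain ⟨P, hP, e, h⟩ := hv
  exact ⟨_, P, hP, e, h, rfl⟩

theorem vals_le (hδ : ∀ P ∈ X, 0 ≤ δ P) {c : ℝ} (hc : c ∈ vals L X δ v) : c ≤ 1 := by
  obtain ⟨P, hP, e, h, rfl⟩ := hc
  have he : (1 : ℝ) ≤ e := by exact_mod_cast h.1
  rw [div_le_one (by linarith)]
  have := hδ P hP
  linarith

theorem orb_nonneg (hδ : ∀ P ∈ X, 0 ≤ δ P) (hv : v ∈ und L X) : 0 ≤ orb L X δ v := by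
  have := csSup_le (vals_ne (δ := δ) hv) fun c hc => vals_le hδ hc
  unfold orb
  linarith

theorem orb_le (hδ : ∀ P ∈ X, 0 ≤ δ P) {P : Place ℂ K} (hP : P ∈ X) {e : ℕ} (h : Over P v e) :
    1 - δ P ≤ e * (1 - orb L X δ v) := by
  have he : (0 : ℝ) < e := by
    have : (1 : ℝ) ≤ e := by exact_mod_cast h.1
    linarith
  have h1 : (1 - δ P) / e ≤ sSup (vals L X δ v) :=
    le_csSup ⟨1, fun c hc => vals_le hδ hc⟩ ⟨P, hP, e, h, rfl⟩
  unfold orb
  rw [sub_sub_cancel, mul_comm]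
  exact (div_le_iff₀ he).1 h1

theorem orb_ge (hv : v ∈ und L X) {M : ℝ}
    (h : ∀ P ∈ X, ∀ e, Over P v e → 1 - δ P ≤ e * M) : 1 - orb L X δ v ≤ M := by
  unfold orb
  rw [sub_sub_cancel]
  refine csSup_le (vals_ne hv) fun c hc => ?_
  obtain ⟨P, hP, e, ho, rfl⟩ := hc
  have he : (0 : ℝ) < e := by
    have : (1 : ℝ) ≤ e := by exact_mod_cast ho.1
    linarith
  rw [div_le_iff₀ he, mul_comm]
  exact h P hP e ho

end

section

variable {K : Type} [Field K] [Algebra ℂ K] {N : ℕ} {y : Fin (N + 1) → K} {n : ℕ}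

/-- **Weak abundance over a base of general type.** -/
theorem weak_base {Δ : Place ℂ K → ℚ} {p r : ℕ}
    (hy : NormalModel y) (hn : Algebra.trdeg ℂ K = n) (hΔ : Effective y Δ)
    (hLC : LogCanonical y n Δ) {L : IntermediateField ℂ K}
    (hp : Algebra.trdeg ℂ L = p) {B : Place ℂ L → ℝ}
    (hδ : ∀ P ∈ {P | IsPrimeDivisor y P}, ∀ (v : Place ℂ L) (e : ℕ), Over P v e →
      1 - (Δ P : ℝ) ≤ e * (1 - B v))
    (hB : KodairaGe p (und L {P | IsPrimeDivisor y P}) B p)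
    {t : Fin r → K} (ht : ∀ j, t j ≠ 0)
    (hgen : IntermediateField.adjoin ℂ ({x : K | IsAlgebraic L x} ∪ Set.range t) = ⊤)
    (h2 : ∀ P, IsPrimeDivisor y P → (∀ f ∈ L, f ≠ 0 → P.ord f = 0) →
      (∃ j, P.ord (t j) ≠ 0) → 1 ≤ Δ P) :
    ∃ κ : ℕ, p ≤ κ ∧ kodairaDim y n Δ = (κ : WithBot ℕ) ∧
      ∀ A, Effective y A → Integral y A → numericalDim y n Δ A = (κ : EReal) := by
  classical
  refine Pool.Agent.V8H90.AJ.weak_main' hy hn hΔ hLC hp ?_ ht hgen h2
  rintro s rfl δ₁ δ₂ lam hle heq h0 m hm θ hθ hne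
  refine comb hy.ess hp hn (δ := fun P => (Δ P : ℝ)) hB hm hθ hne (fun P hP _ => ?_)
    fun P hP v e hv => ?_
  · have h3 := hle P hP
    have h4 := h0 P hP
    linarith
  · have h3 := hle P hP
    have h4 := heq P hP fun h => over_not_triv hv h
    have h5 := hδ P hP v e hv
    linarith

end

section

variable {K : Type} [Field K] [Algebra ℂ K] {L : IntermediateField ℂ K} {n : ℕ} {A : Type}
  {dg : A → ℕ} {G : A → MvPolynomial (Fin (n + 1)) ℂ}

theorem pord_over {P : Place ℂ K} {v : Place ℂ L} {e : ℕ} (h : Over P v e) {x : Fin (n + 1) → L}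
    (hx : ∃ j, x j ≠ 0) : pord P (fun j => (x j : K)) = e * pord v x := by
  have hx' : ∃ j, (x j : K) ≠ 0 := by
    obtain ⟨j, hj⟩ := hx
    exact ⟨j, fun h => hj (Subtype.ext h)⟩
  apply le_antisymm
  · obtain ⟨j, hj, h1⟩ := exists_pord v hx
    rw [← h1, ← h.2]
    exact pord_le P (f := fun j => (x j : K)) (j := j) fun h => hj (Subtype.ext h)
  · obtain ⟨j, hj, h1⟩ := exists_pord P (f := fun j => (x j : K)) hx'
    rw [← h1]
    have h2 := h.2 (x j)
    change P.ord (x j : K) = _ at h2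
    rw [h2]
    exact mul_le_mul_of_nonneg_left (pord_le v fun h => hj (by rw [h]; rfl)) (by positivity)

theorem mu_over {P : Place ℂ K} {v : Place ℂ L} {e : ℕ} (h : Over P v e) {x : Fin (n + 1) → L}
    (hx : ∃ j, x j ≠ 0) (a : A) : mu G dg (fun j => (x j : K)) P a = e * mu G dg x v a := by
  unfold mu
  rw [pord_over h hx]
  have h1 : aeval (fun j => (x j : K)) (G a) = algebraMap L K (aeval x (G a)) := by
    rw [← aeval_algebraMap_apply]
    rfl
  rw [h1, h.2]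
  ring

theorem mu_scale (hG : ∀ a, (G a).IsHomogeneous (dg a)) {x : Fin (n + 1) → K}
    (hx : ∃ j, x j ≠ 0) {c : K} (hc : c ≠ 0) (P : Place ℂ K) {a : A}
    (ha : aeval x (G a) ≠ 0) : mu G dg (fun j => c * x j) P a = mu G dg x P a := by
  unfold mu
  rw [pord_scale P hx hc]
  have h1 : aeval (fun j => c * x j) (G a) = c ^ dg a * aeval x (G a) := by
    have h2 : ∀ z : Fin (n + 1) → K, aeval z (G a) = eval z (map (algebraMap ℂ K) (G a)) := by
      intro z
      rw [eval_map]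
      rfl
    rw [h2, h2]
    exact Pool.Agent.TH145.GH.eval_smul_hom ((hG a).map _) x c
  rw [h1, P.ord_mul (pow_ne_zero _ hc) ha, P.ord_pow]
  ring

end

end Pool.Agent.V8H90.VG
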