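import Pool.Agent.V8H90.VG.Orb
import Pool.Agent.V8H92.TB.Main
import Pool.Agent.V8H50.AF.Sec

/-!
Torus fibrations over a base of general type.
-/

set_option autoImplicit false

open MvPolynomial FF Pool.Agent.W603.LV Pool.Agent.W619.PQ
open Pool.Agent.W602.GT Pool.Agent.TH585.SV Pool.Agent.Y191 Pool.Agent.V8H50.MA
open Pool.Agent.V8H92.TA (term)
open Pool.Agent.V8H92.TB (MonoPl exists_rel det_rel basis_of_top' ess_top trdeg_top)
open Pool.Agent.V8H50.AF (ind ind_pos ind_neg kodGe_of_pair)

namespace Pool.Agent.V8H90.VG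

section

variable {K : Type} [Field K] [Algebra ℂ K] {F : IntermediateField ℂ K} {n : ℕ} {t : Fin n → K}

/-- the form of the torus at the places which are not monomial -/
theorem ge_tor (ht : AlgebraicIndependent F t) {v : Place ℂ K} (hv : ¬ MonoPl F t v)
    (G : Fin n → Derivation F K K) (hG : ∀ j f, v.Reg f → v.Reg (G j f)) :
    Ge v 0 (Matrix.of fun j i => G j (t i) / t i).det := by
  classical
  obtain ⟨Q, a0, j0, ha0, hR, hw, hb0, hb, hrel⟩ := exists_rel ht hv
  refine det_rel v (fun j => (G j).restrictScalars ℂ) (fun j f hf => hG j f hf) t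
    (fun i => ∑ a ∈ Q.support, (term t Q a / term t Q a0) * (((a i : ℤ) - a0 i : ℤ) : K))
    (fun i => ht.ne_zero i) j0 hb0 hb (aeval t Q / term t Q a0) hR fun j => ?_
  rw [hrel]
  have h0 : ∀ f : F, (G j).restrictScalars ℂ (algebraMap F K f) = 0 := fun f =>
    (G j).map_algebraMap f
  simp only [h0, zero_div, sub_zero, zero_add]
  simp_rw [Finset.mul_sum, Finset.sum_mul]
  rw [Finset.sum_comm]
  refine Finset.sum_congr rfl fun i _ => Finset.sum_congr rfl fun a _ => by ring

open Classical in
/-- the boundary of the torus -/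
noncomputable def bdt (F : IntermediateField ℂ K) (Bd : Place ℂ K → Prop) (P : Place ℂ K) : ℝ :=
  if (∀ f ∈ F, f ≠ 0 → P.ord f = 0) then ind Bd P else 0

theorem fib_tor (ht : AlgebraicIndependent F t) {Bd : Place ℂ K → Prop}
    (hhor : ∀ v : Place ℂ K, ¬ Bd v → MonoPl F t v → (∀ f : F, v.ord (f : K) = 0) →
      ∀ i, v.ord (t i) = 0) {N : ℕ} (X : Set (Place ℂ K)) :
    FibSec N 1 X (bdt F Bd) F
      (fun G : Fin n → Derivation F K K => (Matrix.of fun j i => G j (t i) / t i).det) := by
  classical
  refine ⟨fun A D => ?_, fun P _ _ G hG => ?_⟩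
  · change (Matrix.of fun j i => (∑ l, A j l • D l) (t i) / t i).det = _
    rw [pow_one, ← Matrix.det_mul]
    congr 1
    ext j i
    rw [Matrix.mul_apply, Matrix.of_apply, ← Derivation.coeFnAddMonoidHom_apply, map_sum,
      Finset.sum_apply, Finset.sum_div]
    refine Finset.sum_congr rfl fun l _ => ?_
    rw [Matrix.of_apply, mul_div_assoc']
    rfl
  · have hto : ∀ {c : ℤ} {f : K}, Ge P c f → f = 0 ∨ (c : ℝ) ≤ P.ord f := fun h =>
      h.imp_right fun h => by exact_mod_cast h
    have hGr : ∀ j, DerReg P ((G j).restrictScalars ℂ) := fun j f hf => hG j f hf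
    unfold bdt
    by_cases htriv : ∀ f ∈ F, f ≠ 0 → P.ord f = 0
    · rw [if_pos htriv]
      by_cases hBd : Bd P
      · rw [ind_pos hBd]
        have h1 := det_log P (fun j => (G j).restrictScalars ℂ) (fun j f hf => hG j f hf) t
          fun i => ht.ne_zero i
        refine (hto h1).imp_right fun h => le_trans ?_ h
        push_cast
        linarith
      · rw [ind_neg hBd]
        have h1 : Ge P 0 (Matrix.of fun j i => G j (t i) / t i).det := by
          by_cases hm : MonoPl F t P
          · have h2 := hhor P hBd hm fun f => by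
              by_cases hf : f = 0
              · rw [hf]
                exact P.ord_zero
              · exact htriv _ f.2 fun h => hf (Subtype.ext h)
            exact det_log_unit P (fun j => (G j).restrictScalars ℂ) (fun j f hf => hG j f hf) t h2
          · exact ge_tor ht hm G hG
        refine (hto h1).imp_right fun h => le_trans ?_ h
        push_cast
        linarith
    · rw [if_neg htriv]
      push Not at htriv
      obtain ⟨f, hf, hf0, hfo⟩ := htriv
      have h1 : Ge P 0 (Matrix.of fun j i => G j (t i) / t i).det := by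
        refine ge_det P _ fun j i => ?_
        exact Pool.Agent.Y172.log_of_kill (hGr j) hf0 ((G j).map_algebraMap ⟨f, hf⟩) hfo (t i)
      refine (hto h1).imp_right fun h => le_trans ?_ h
      push_cast
      linarith

/-- **Torus fibrations over a base of general type.** -/
theorem kod_tor {p : ℕ} (hess : Algebra.EssFiniteType ℂ K) (hp : Algebra.trdeg ℂ F = p)
    (ht : AlgebraicIndependent F t) (htop : IntermediateField.adjoin F (Set.range t) = ⊤)
    {Bd : Place ℂ K → Prop}
    (hhor : ∀ v : Place ℂ K, ¬ Bd v → MonoPl F t v → (∀ f : F, v.ord (f : K) = 0) →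
      ∀ i, v.ord (t i) = 0)
    {B : Place ℂ F → ℝ}
    (hδ : ∀ P : Place ℂ K, ∀ (v : Place ℂ F) (e : ℕ), Divisorial (p + n) P → Over P v e →
      1 - ind Bd P ≤ e * (1 - B v))
    (hB : KodairaGe p (und F {P | Divisorial (p + n) P}) B p) :
    KodGe ℂ K (p + n) Bd p := by
  classical
  have htrK : Algebra.trdeg ℂ K = (p + n : ℕ) := by
    rw [trdeg_top hp ht htop, add_comm]
  refine kodGe_of_pair htrK ?_
  obtain ⟨G, hG⟩ : ∃ G : Fin n → Derivation F K K, ∀ i j, G i (t j) = if i = j then t j else 0 := by
    have h1 : ∀ i : Fin n, ∃ D : Derivation F K K, ∀ j, D (t j) = if i = j then t j else 0 :=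
      fun i => Pool.Agent.W602.GT.exists_der t (basis_of_top' ht htop) _
    choose G hG using h1
    exact ⟨G, hG⟩
  have hdet : (Matrix.of fun j i => G j (t i) / t i).det = 1 := by
    have h1 : (Matrix.of fun j i => G j (t i) / t i) = (1 : Matrix (Fin n) (Fin n) K) := by
      ext j i
      rw [Matrix.of_apply, hG, Matrix.one_apply]
      split_ifs with h
      · exact div_self (ht.ne_zero i)
      · exact zero_div _
    rw [h1, Matrix.det_one]
  have h2 := comb (s := n) (a := p) (lam := 0) (m := 1) (X := {P | Divisorial (p + n) P})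
    (δ := ind Bd) (δ₂ := bdt F Bd) (B := B) hess hp htrK hB one_pos
    (θ := fun _ G => (Matrix.of fun j i => G j (t i) / t i).det)
    (fun _ => fib_tor ht hhor _) ⟨G, by rw [hdet]; exact one_ne_zero, ?_⟩
    (fun P _ htriv => ?_) fun P hP v e hv => ?_
  · obtain ⟨N, hN, ω, hω, D, hD⟩ := h2
    exact ⟨N, hN, ω, fun j => ⟨(hω j).1, fun P _ hPd => (hω j).2 P hPd hPd⟩, D, hD⟩
  · rw [algebraicIndependent_empty_type_iff]
    exact (algebraMap F K).injective
  · unfold bdt
    rw [if_pos htriv]
  · unfold bdt
    rw [if_neg (over_not_triv hv), add_zero]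
    have h3 := hδ P v e hP hv
    linarith

end

end Pool.Agent.V8H90.VG
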