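import Pool.Agent.V8H90.VG.Main

/-!
Torus fibrations over varieties with a generically finite orbifold map to a very general pair.
-/

set_option autoImplicit false

open MvPolynomial FF Pool.Agent.W603.LV Pool.Agent.W603.PV Pool.Agent.W619.PL
open Pool.Agent.W602.GT Pool.Agent.TH585.SV Pool.Agent.Y172 Pool.Agent.Y191 Pool.Agent.V8H50.MA
open Pool.Agent.TH145.GF Pool.Agent.TH145.MG
open Pool.Agent.TH145.GC (Cf)
open Pool.Agent.V8H50.AF (ind ind_pos ind_neg)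
open Pool.Agent.V8H92.TA (not_psef_of_a1)
open Pool.Agent.V8H92.TB (MonoPl trdeg_top ess_top a1_horizontal)

namespace Pool.Agent.V8H90.VG

section

variable {K : Type} [Field K] [Algebra ℂ K] {n : ℕ} {A : Type} {dg : A → ℕ}
  {G : A → MvPolynomial (Fin (n + 1)) ℂ}

/-- The multiplicities are not negative. -/
theorem mu_nonneg (hG : ∀ a, (G a).IsHomogeneous (dg a)) {b : Fin (n + 1) → K}
    (hb : ∃ j, b j ≠ 0) (P : Place ℂ K) {a : A} (ha : aeval b (G a) ≠ 0) :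
    0 ≤ mu G dg b P a := by
  obtain ⟨j, hj, h1⟩ := exists_pord P hb
  have hc : (b j)⁻¹ ≠ 0 := inv_ne_zero hj
  rw [← mu_scale hG hb hc P ha]
  have h2 : pord P (fun i => (b j)⁻¹ * b i) = 0 := by
    rw [pord_scale P hb hc, P.ord_inv, h1]
    ring
  have h3 : ∀ i, Ge P 0 ((b j)⁻¹ * b i) := fun i => by
    have h4 := ge_pord P (fun i => (b j)⁻¹ * b i) i
    rwa [h2] at h4
  have h5 : Ge P 0 (eval (fun i => (b j)⁻¹ * b i) (map (algebraMap ℂ K) (G a))) := by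
    refine Pool.Agent.TH145.GH.ge_eval P h3 fun u => ?_
    rw [coeff_map]
    exact Ge.const _
  have h6 : aeval (fun i => (b j)⁻¹ * b i) (G a) ≠ 0 := by
    have h7 : ∀ z : Fin (n + 1) → K, aeval z (G a) = eval z (map (algebraMap ℂ K) (G a)) := by
      intro z
      rw [eval_map]
      rfl
    rw [h7]
    have h8 := Pool.Agent.TH145.GH.eval_smul_hom ((hG a).map (algebraMap ℂ K)) b (b j)⁻¹
    change eval ((b j)⁻¹ • b) _ ≠ 0
    rw [h8, ← h7]
    exact mul_ne_zero (pow_ne_zero _ hc) ha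
  have h9 : Ge P 0 (aeval (fun i => (b j)⁻¹ * b i) (G a)) := by
    rw [eval_map] at h5
    exact h5
  unfold mu
  rw [h2, mul_zero, sub_zero]
  exact h9.resolve_left h6

end

section

variable {k0 : Type} [Field k0] [Algebra k0 ℂ] {n p s : ℕ} {A : Type} [Fintype A] [DecidableEq A]
  {dg : A → ℕ} {K : Type} [Field K] [Algebra ℂ K]

/-- **Q1 for torus fibrations** over varieties with an orbifold map to a very general pair. -/
theorem tfae_vg (hess : Algebra.EssFiniteType ℂ K) (hn : 1 ≤ n) (hpos : ∀ a, 0 < dg a)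
    {G : A → MvPolynomial (Fin (n + 1)) ℂ} (hG : ∀ a, (G a).IsHomogeneous (dg a))
    (hind : AlgebraicIndependent k0 fun p : Cf n dg => (G p.1).coeff p.2.1)
    {C : Finset A} (hC : ∃ b, b ∉ C) (hd : 3 * n + 3 ≤ 2 * ∑ a, dg a + C.card) (hp : 0 < p)
    {F : IntermediateField ℂ K} (htr : Algebra.trdeg ℂ F = p) {b : Fin (n + 1) → K}
    {j0 : Fin (n + 1)} (hj0 : b j0 ≠ 0) (hbL : ∀ j, b j / b j0 ∈ F)
    (halg : ∀ f ∈ F, IsAlgebraic (RF ℂ b) f)
    (hxC : ∀ c ∈ C, aeval b (G c) = 0) (hxb : ∀ a, a ∉ C → aeval b (G a) ≠ 0)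
    {m : A → ℕ} (hm : ∀ b, 1 ≤ m b)
    (hT : (2 * n + 1 : ℚ) < ∑ c ∈ C, ((dg c : ℚ) + 1) + ∑ b ∈ Cᶜ, (dg b : ℚ) * (1 - 1 / m b) + p)
    {t : Fin s → K} (ht : AlgebraicIndependent F t)
    (htop : IntermediateField.adjoin F (Set.range t) = ⊤) {Bd : Place ℂ K → Prop}
    (hgen : ∀ P : Place ℂ K, (∀ f : F, P.ord (f : K) = 0) → (∀ i, P.ord (t i) = 0) → ¬ Bd P)
    (hmul : ∀ P : Place ℂ K, Divisorial (s + p) P → ¬ Bd P → (∀ a, a ∉ C → mu G dg b P a = 0) ∨
      (1 : ℚ) ≤ ∑ a ∈ Cᶜ, (mu G dg b P a : ℚ) / m a) :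
    [¬ KodGe ℂ K (s + p) Bd 0, ¬ Psef ℂ K (s + p) Bd, IsA1Uniruled ℂ K (s + p) Bd,
      ∃ v : Place ℂ K, ¬ Bd v ∧ MonoPl F t v ∧ (∀ f : F, v.ord (f : K) = 0) ∧
        ∃ i, v.ord (t i) ≠ 0].TFAE ∧
    ((¬ ∃ v : Place ℂ K, ¬ Bd v ∧ MonoPl F t v ∧ (∀ f : F, v.ord (f : K) = 0) ∧
        ∃ i, v.ord (t i) ≠ 0) → KodGe ℂ K (s + p) Bd p) := by
  classical
  have hb0 : ∃ j, b j ≠ 0 := ⟨j0, hj0⟩
  have hessF : Algebra.EssFiniteType ℂ F := ess_sub hess F
  have htrK : Algebra.trdeg ℂ K = (s + p : ℕ) := trdeg_top htr ht htop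
  have hind0 : ∀ P ∈ {P : Place ℂ K | Divisorial (p + s) P}, 0 ≤ ind Bd P := fun P _ => by
    by_cases h : Bd P
    · rw [ind_pos h]
      exact zero_le_one
    · rw [ind_neg h]
  have hbase : KodairaGe p (und F {P : Place ℂ K | Divisorial (p + s) P})
      (orb F {P | Divisorial (p + s) P} (ind Bd)) p := by
    refine base_two hess hn hpos hG hind hC hd hp htr hj0 hbL halg hxC hxb hm hT hind0
      fun P hP => ?_
    by_cases h : Bd P
    · rw [ind_pos h, sub_self]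
      right
      refine Finset.sum_nonneg fun a ha => div_nonneg ?_ (by positivity)
      exact_mod_cast mu_nonneg hG hb0 P (hxb a (Finset.mem_compl.1 ha))
    · rw [ind_neg h, sub_zero]
      have hP' : Divisorial (s + p) P := by rw [add_comm]; exact hP
      refine (hmul P hP' h).imp id fun h1 => ?_
      have h2 : ((1 : ℚ) : ℝ) ≤ ((∑ a ∈ Cᶜ, (mu G dg b P a : ℚ) / m a : ℚ) : ℝ) := by
        exact_mod_cast h1
      push_cast at h2
      exact h2
  have hkod : (¬ ∃ v : Place ℂ K, ¬ Bd v ∧ MonoPl F t v ∧ (∀ f : F, v.ord (f : K) = 0) ∧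
        ∃ i, v.ord (t i) ≠ 0) → KodGe ℂ K (s + p) Bd p := by
    intro h
    push Not at h
    have h1 := kod_tor hess htr ht htop h
      (fun P v e hP ho => orb_le hind0 hP ho) hbase
    rwa [add_comm] at h1
  refine ⟨?_, hkod⟩
  tfae_have 3 → 2 := not_psef_of_a1 htrK
  tfae_have 2 → 1 := fun h h' => h (psef_of_kodGe h')
  tfae_have 1 → 4 := by
    intro h
    by_contra hcon
    obtain ⟨N, hN, ω, hω, D, hD, -⟩ := hkod hcon
    exact h ⟨N, hN, fun _ => ω 0, fun _ => hω 0, D, hD,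
      algebraicIndependent_empty_type_iff.2 (algebraMap ℂ K).injective⟩
  tfae_have 4 → 3 := by
    rintro ⟨v, hv, hmo, htriv, i, hi⟩
    exact a1_horizontal htr ht htop hgen hv hmo htriv i hi
  tfae_finish

end

end Pool.Agent.V8H90.VG
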