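import Pool.Agent.V8H90.VG.GenB

/-!
Torus fibrations over varieties with a generically finite orbifold map to an arbitrary projective
variety with generic hypersurfaces.
-/

set_option autoImplicit false

open MvPolynomial FF Pool.Agent.W603.LV Pool.Agent.W603.PV Pool.Agent.W619.PL
open Pool.Agent.W602.GT Pool.Agent.TH585.SV Pool.Agent.Y172 Pool.Agent.Y191 Pool.Agent.V8H50.MA
open Pool.Agent.TH145.GF Pool.Agent.TH145.MG
open Pool.Agent.V8H50.AF (ind ind_pos ind_neg)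
open Pool.Agent.V8H92.TA (not_psef_of_a1)
open Pool.Agent.V8H92.TB (MonoPl trdeg_top ess_top a1_horizontal)

namespace Pool.Agent.V8H90.VG

variable {k0 : Type} [Field k0] [Algebra k0 ℂ] {n p r s : ℕ} {A : Type} [Fintype A]
  [DecidableEq A] {dg : A → ℕ} {K : Type} [Field K] [Algebra ℂ K]

/-- **Q1 for torus fibrations** over varieties with an orbifold map to a generic pair. -/
theorem tfae_gen (hess : Algebra.EssFiniteType ℂ K) {G : A → MvPolynomial (Fin (n + 1)) ℂ}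
    (hgnr : Gnr k0 G dg) {V : Set (MvPolynomial (Fin (n + 1)) k0)}
    (hVh : ∀ f ∈ V, ∃ e, f.IsHomogeneous e) (hV : DimLE k0 V r) {C : Finset A} (hp : 0 < p)
    {F : IntermediateField ℂ K} (htr : Algebra.trdeg ℂ F = p) {b : Fin (n + 1) → K}
    {j0 : Fin (n + 1)} (hj0 : b j0 ≠ 0) (hbL : ∀ j, b j / b j0 ∈ F)
    (halg : ∀ f ∈ F, IsAlgebraic (RF ℂ b) f)
    (hxV : ∀ f ∈ V, aeval b (map (algebraMap k0 ℂ) f) = 0)
    (hxC : ∀ c ∈ C, aeval b (G c) = 0) (hxb : ∀ a, a ∉ C → aeval b (G a) ≠ 0)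
    {m : A → ℕ} (hm : ∀ b, 1 ≤ m b)
    (hT : (2 * r + 1 : ℚ) < ∑ c ∈ C, ((dg c : ℚ) + 1) + ∑ b ∈ Cᶜ, (dg b : ℚ) * (1 - 1 / m b) + p)
    {t : Fin s → K} (ht : AlgebraicIndependent F t)
    (htop : IntermediateField.adjoin F (Set.range t) = ⊤) {Bd : Place ℂ K → Prop}
    (hgen : ∀ P : Place ℂ K, (∀ f : F, P.ord (f : K) = 0) → (∀ i, P.ord (t i) = 0) → ¬ Bd P)
    (hmul : ∀ P : Place ℂ K, Divisorial (s + p) P → ¬ Bd P → (∀ a, a ∉ C → mu G dg b P a = 0) ∨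
      (1 : ℚ) ≤ ∑ a ∈ Cᶜ, (mu G dg b P a : ℚ) / m a) :
    [¬ KodGe ℂ K (s + p) Bd 0, ¬ Psef ℂ K (s + p) Bd, IsA1Uniruled ℂ K (s + p) Bd,
      ∃ v : Place ℂ K, ¬ Bd v ∧ MonoPl F t v ∧ (∀ f : F, v.ord (f : K) = 0) ∧
        ∃ i, v.ord (t i) ≠ 0].TFAE ∧
    ((¬ ∃ v : Place ℂ K, ¬ Bd v ∧ MonoPl F t v ∧ (∀ f : F, v.ord (f : K) = 0) ∧
        ∃ i, v.ord (t i) ≠ 0) → KodGe ℂ K (s + p) Bd p) := by
  classical
  have hb0 : ∃ j, b j ≠ 0 := ⟨j0, hj0⟩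
  have hessF : Algebra.EssFiniteType ℂ F := ess_sub hess F
  have htrK : Algebra.trdeg ℂ K = (s + p : ℕ) := trdeg_top htr ht htop
  have hind0 : ∀ P ∈ {P : Place ℂ K | Divisorial (p + s) P}, 0 ≤ ind Bd P := fun P _ => by
    by_cases h : Bd P
    · rw [ind_pos h]
      exact zero_le_one
    · rw [ind_neg h]
  have hbase : KodairaGe p (und F {P : Place ℂ K | Divisorial (p + s) P})
      (orb F {P | Divisorial (p + s) P} (ind Bd)) p := by
    refine base_gen hess hgnr hVh hV hp htr hj0 hbL halg hxV hxC hxb hm hT hind0 fun P hP => ?_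
    by_cases h : Bd P
    · rw [ind_pos h, sub_self]
      right
      refine Finset.sum_nonneg fun a ha => div_nonneg ?_ (by positivity)
      exact_mod_cast mu_nonneg hgnr.1 hb0 P (hxb a (Finset.mem_compl.1 ha))
    · rw [ind_neg h, sub_zero]
      have hP' : Divisorial (s + p) P := by rw [add_comm]; exact hP
      refine (hmul P hP' h).imp id fun h1 => ?_
      have h2 : ((1 : ℚ) : ℝ) ≤ ((∑ a ∈ Cᶜ, (mu G dg b P a : ℚ) / m a : ℚ) : ℝ) := by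
        exact_mod_cast h1
      push_cast at h2
      exact h2
  have hkod : (¬ ∃ v : Place ℂ K, ¬ Bd v ∧ MonoPl F t v ∧ (∀ f : F, v.ord (f : K) = 0) ∧
        ∃ i, v.ord (t i) ≠ 0) → KodGe ℂ K (s + p) Bd p := by
    intro h
    push Not at h
    have h1 := kod_tor hess htr ht htop h
      (fun P v e hP ho => orb_le hind0 hP ho) hbase
    rwa [add_comm] at h1
  refine ⟨?_, hkod⟩
  tfae_have 3 → 2 := not_psef_of_a1 htrK
  tfae_have 2 → 1 := fun h h' => h (psef_of_kodGe h')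
  tfae_have 1 → 4 := by
    intro h
    by_contra hcon
    obtain ⟨N, hN, ω, hω, D, hD, -⟩ := hkod hcon
    exact h ⟨N, hN, fun _ => ω 0, fun _ => hω 0, D, hD,
      algebraicIndependent_empty_type_iff.2 (algebraMap ℂ K).injective⟩
  tfae_have 4 → 3 := by
    rintro ⟨v, hv, hmo, htriv, i, hi⟩
    exact a1_horizontal htr ht htop hgen hv hmo htriv i hi
  tfae_finish

/-- **Weak abundance over a generic pair.** -/
theorem weak_gen {N d : ℕ} {y : Fin (N + 1) → K} {Δ : Place ℂ K → ℚ} (hy : NormalModel y)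
    (hn : Algebra.trdeg ℂ K = d) (hΔ : Effective y Δ) (hLC : LogCanonical y d Δ)
    {G : A → MvPolynomial (Fin (n + 1)) ℂ}
    (hgnr : Gnr k0 G dg) {V : Set (MvPolynomial (Fin (n + 1)) k0)}
    (hVh : ∀ f ∈ V, ∃ e, f.IsHomogeneous e) (hV : DimLE k0 V r) {C : Finset A} (hp : 0 < p)
    {b : Fin (n + 1) → K} (hb0 : ∃ j, b j ≠ 0) (htr : Algebra.trdeg ℂ (RF ℂ b) = p)
    (hxV : ∀ f ∈ V, aeval b (map (algebraMap k0 ℂ) f) = 0)
    (hxC : ∀ c ∈ C, aeval b (G c) = 0) (hxb : ∀ a, a ∉ C → aeval b (G a) ≠ 0)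
    {m : A → ℕ} (hm : ∀ b, 1 ≤ m b)
    (hT : (2 * r + 1 : ℚ) < ∑ c ∈ C, ((dg c : ℚ) + 1) + ∑ b ∈ Cᶜ, (dg b : ℚ) * (1 - 1 / m b) + p)
    (hmul : ∀ P, IsPrimeDivisor y P → (∀ a, a ∉ C → mu G dg b P a = 0) ∨
      1 - Δ P ≤ ∑ a ∈ Cᶜ, (mu G dg b P a : ℚ) / m a)
    {q : ℕ} {t : Fin q → K} (ht : ∀ j, t j ≠ 0)
    (hgen : IntermediateField.adjoin ℂ
      ({x : K | IsAlgebraic (RF ℂ b) x} ∪ Set.range t) = ⊤)
    (h2 : ∀ P, IsPrimeDivisor y P → (∀ f ∈ RF ℂ b, f ≠ 0 → P.ord f = 0) →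
      (∃ j, P.ord (t j) ≠ 0) → 1 ≤ Δ P) :
    ∃ κ : ℕ, p ≤ κ ∧ kodairaDim y d Δ = (κ : WithBot ℕ) ∧
      ∀ A, Effective y A → Integral y A → numericalDim y d Δ A = (κ : EReal) := by
  classical
  obtain ⟨j0, hj0⟩ := hb0
  have hδ : ∀ P ∈ {P | IsPrimeDivisor y P}, (0 : ℝ) ≤ (Δ P : ℝ) := fun P hP => by
    have := hΔ.1 P hP
    exact_mod_cast this
  refine weak_base hy hn hΔ hLC htr (fun P hP v e ho => orb_le hδ hP ho)
    (base_gen hy.ess hgnr hVh hV hp htr hj0 (fun j => ?_) (fun f hf => ?_) hxV hxC hxb hm hT hδ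
      fun P hP => ?_) ht hgen h2
  · exact IntermediateField.subset_adjoin _ _ ⟨_, _, hj0, rfl⟩
  · exact isAlgebraic_algebraMap (⟨f, hf⟩ : RF ℂ b)
  · refine (hmul P hP).imp id fun h1 => ?_
    have h3 : ((1 - Δ P : ℚ) : ℝ) ≤ ((∑ a ∈ Cᶜ, (mu G dg b P a : ℚ) / m a : ℚ) : ℝ) := by
      exact_mod_cast h1
    push_cast at h3
    exact h3

end Pool.Agent.V8H90.VG
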